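import Pool.Agent.Y119.HG.Defs2

/-!
# Bases over a subfield
-/

set_option autoImplicit false

namespace Pool.Agent.Y606.HG

open Pool.Agent.Y119.HG

/-- a step of the flag which is defined over `K` has a basis over `K` -/
theorem t_SPN : T_SPN := by
  classical
  intro n p K w hw hs
  obtain ⟨s, hs⟩ := hs
  obtain ⟨b, hbs, hbspan, hbind⟩ := exists_linearIndependent ℂ
    ((fun (x : Fin n → K) i => ((x i : K) : ℂ)) '' s)
  have hfin : Finite b := hbind.finite
  have hft : Fintype b := Fintype.ofFinite b
  have hcard : Fintype.card b = p := by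
    have h1 := finrank_span_eq_card hw
    have h2 := finrank_span_eq_card hbind
    rw [Subtype.range_coe, hbspan, ← hs, h1, Fintype.card_fin] at h2
    exact h2.symm
  let e : Fin p ≃ b := (Fintype.equivFinOfCardEq hcard).symm
  have hx : ∀ j : Fin p, ∃ y : Fin n → K, (fun l => ((y l : K) : ℂ)) = (e j : Fin n → ℂ) := by
    intro j
    obtain ⟨y, _, hy⟩ := hbs (e j).2
    exact ⟨y, hy⟩
  choose x hx using hx
  have hrange : Set.range (fun j => (fun l => ((x j l : K) : ℂ))) = b := by
    ext v
    rw [Set.mem_range]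
    constructor
    · rintro ⟨j, rfl⟩
      rw [hx]
      exact (e j).2
    · intro hv
      refine ⟨e.symm ⟨v, hv⟩, ?_⟩
      rw [hx, Equiv.apply_symm_apply]
  have h1 : ∀ i, ∃ c : Fin p → ℂ, ∑ j, c j • (fun l => ((x j l : K) : ℂ)) = w i := by
    intro i
    rw [← Submodule.mem_span_range_iff_exists_fun, hrange, hbspan, ← hs]
    exact Submodule.subset_span ⟨i, rfl⟩
  have h2 : ∀ j, ∃ c : Fin p → ℂ, ∑ i, c i • w i = fun l => ((x j l : K) : ℂ) := by
    intro j
    rw [← Submodule.mem_span_range_iff_exists_fun, hs, ← hbspan, ← hrange]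
    exact Submodule.subset_span ⟨j, rfl⟩
  choose c hc using h1
  choose c' hc' using h2
  exact ⟨x, c, c', fun i => (hc i).symm, fun j => (hc' j).symm⟩

end Pool.Agent.Y606.HG
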